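import Pool.Agent.MP_3df3be_co.So5

namespace Pool.Agent.Results.MP_3df3be_co.FewOrders

/-- For every `c > 0` a latin square of order `n` has subsquares of at most `K n ^ (1 - δ)`
different orders `m` with `c n ≤ m ≤ n / 2`; for `c ≥ 2 / 5` one can take `δ = 1 / 19`. -/
theorem result : ∀ c : ℝ, 0 < c → ∃ δ K : ℝ, 0 < δ ∧ (2 / 5 ≤ c → δ = 1 / 19) ∧
    ∀ (n : ℕ) (L : Fin n → Fin n → Fin n),
      (∀ i : Fin n, Function.Bijective (L i)) →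
      (∀ j : Fin n, Function.Bijective fun i : Fin n => L i j) →
      (Set.ncard {m : ℕ | 1 ≤ m ∧ c * n ≤ m ∧ 2 * m ≤ n ∧
        ∃ R C S : Finset (Fin n), R.card = m ∧ C.card = m ∧ S.card = m ∧
          ∀ r ∈ R, ∀ k ∈ C, L r k ∈ S} : ℝ) ≤ K * (n : ℝ) ^ (1 - δ) := by
  intro c c0
  have f : ∀ (n : ℕ) (L : Fin n → Fin n → Fin n), Set.Finite {m : ℕ | 1 ≤ m ∧ c * n ≤ m ∧
      2 * m ≤ n ∧ ∃ R C S : Finset (Fin n), R.card = m ∧ C.card = m ∧ S.card = m ∧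
        ∀ r ∈ R, ∀ k ∈ C, L r k ∈ S} := fun n L =>
    (Set.finite_le_nat n).subset fun m hm => by have := hm.2.2.1; show m ≤ n; omega
  by_cases u : 2 / 5 ≤ c
  · refine ⟨1 / 19, 3 * 10 ^ 8, by norm_num, fun _ => rfl, fun n L h1 h2 => ?_⟩
    rw [Set.ncard_eq_toFinset_card _ (f n L), show (1 - 1 / 19 : ℝ) = 18 / 19 by norm_num]
    refine MP_3df3be_co.top h1 h2 _ fun m hm => ?_
    obtain ⟨a, b, d⟩ := (f n L).mem_toFinset.1 hm
    have := mul_le_mul_of_nonneg_right u (Nat.cast_nonneg (α := ℝ) n)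
    exact ⟨a, by exact_mod_cast (by linarith : (2 : ℝ) * n ≤ 5 * m), d⟩
  · obtain ⟨δ, K, δ0, h⟩ := MP_3df3be_co.So.few c0
    refine ⟨δ, K, δ0, fun v => absurd v u, fun n L h1 h2 => ?_⟩
    rw [Set.ncard_eq_toFinset_card _ (f n L)]
    exact h n L h1 h2 _ fun m hm =>
      let ⟨a, b, _, d⟩ := (f n L).mem_toFinset.1 hm
      ⟨a, b, d⟩

end Pool.Agent.Results.MP_3df3be_co.FewOrders
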