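import Pool.Agent.MP_3df3be_co.Low4

namespace Pool.Agent.Results.MP_3df3be_co.LowerRange

/-- For every `n ≥ 2` some latin square of order `n` has subsquares of all orders `m ≥ 1` with
`m (log n) ^ (log₂ 5) ≤ a n`. -/
theorem result : ∃ a : ℝ, 0 < a ∧ ∀ n : ℕ, 2 ≤ n → ∃ L : Fin n → Fin n → Fin n,
    (∀ i : Fin n, Function.Bijective (L i)) ∧
    (∀ j : Fin n, Function.Bijective fun i : Fin n => L i j) ∧
    ∀ m : ℕ, 1 ≤ m → (m : ℝ) * Real.log n ^ Real.logb 2 5 ≤ a * n →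
      ∃ R C S : Finset (Fin n), R.card = m ∧ C.card = m ∧ S.card = m ∧
        ∀ r ∈ R, ∀ c ∈ C, L r c ∈ S := by
  refine ⟨(500 * 6 ^ Real.logb 2 5)⁻¹, by positivity, fun n h => ?_⟩
  obtain ⟨L, q, k⟩ := MP_3df3be_co.low h
  exact ⟨L, fun i => Finite.injective_iff_bijective.1 (q.l i),
    fun j => Finite.injective_iff_bijective.1 (q.r j), fun m h1 h2 => k m ⟨h1, h2⟩⟩

end Pool.Agent.Results.MP_3df3be_co.LowerRange
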