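import Pool.Agent.MP_3df3be_co.Pl7

namespace Pool.Agent.Results.MP_3df3be_co.PolylogOrders

/-- A latin square of order `n ≥ 2` has subsquares of at most `2 n / (log n) ^ (1 / 1500)`
different orders `m ≤ n / 2`. -/
theorem result : ∀ (n : ℕ) (L : Fin n → Fin n → Fin n), 2 ≤ n →
    (∀ i : Fin n, Function.Bijective (L i)) →
    (∀ j : Fin n, Function.Bijective fun i : Fin n => L i j) →
    (Set.ncard {m : ℕ | 1 ≤ m ∧ 2 * m ≤ n ∧
      ∃ R C S : Finset (Fin n), R.card = m ∧ C.card = m ∧ S.card = m ∧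
        ∀ r ∈ R, ∀ k ∈ C, L r k ∈ S} : ℝ) ≤ 2 * n / Real.log n ^ (1 / 1500 : ℝ) := by
  intro n L hn h1 h2
  have f : ∀ {s : Set ℕ}, (∀ m ∈ s, 2 * m ≤ n) → s.Finite := fun h =>
    (Set.finite_le_nat n).subset fun m hm => by have := h m hm; show m ≤ n; omega
  rw [Set.ncard_eq_toFinset_card _ (f fun m hm => hm.2.1)]
  exact MP_3df3be_co.So.poly hn h1 h2 _ fun m hm =>
    let ⟨a, _, d⟩ := (Set.Finite.mem_toFinset _).1 hm
    ⟨a, d⟩

end Pool.Agent.Results.MP_3df3be_co.PolylogOrders
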